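import Pool.Agent.K1H53.EX.Plan2

/-! Project EX of helper53: closed convex sets and exponentials. -/

set_option autoImplicit false
set_option linter.unusedSectionVars false

open MeasureTheory Filter Topology

namespace Pool.Agent.K1H38.EX

open Pool.Agent.K1H53.EX

section Exp

variable {V : Type} [NormedAddCommGroup V] [NormedSpace ℝ V] [CompleteSpace V]

/-- shift by a multiple of the identity -/
theorem ex_shift (A : V →L[ℝ] V) (r t : ℝ) : ex (A + r • 1) t = Real.exp (r * t) • ex A t := by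
  unfold ex
  let _ : NormedAlgebra ℚ (V →L[ℝ] V) := NormedAlgebra.restrictScalars ℚ ℝ _
  have e1 : t • (A + r • (1 : V →L[ℝ] V)) = algebraMap ℝ (V →L[ℝ] V) (r * t) + t • A := by
    rw [Algebra.algebraMap_eq_smul_one, smul_add, smul_smul, add_comm, mul_comm t r]
  rw [e1, NormedSpace.exp_add_of_commute (Algebra.commutes (r * t) (t • A)),
    ← NormedSpace.algebraMap_exp_comm, ← Real.exp_eq_exp_ℝ, Algebra.algebraMap_eq_smul_one,
    smul_one_mul]

theorem ex_smul (A : V →L[ℝ] V) (c t : ℝ) : ex (c • A) t = ex A (c * t) := by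
  unfold ex
  rw [smul_smul, mul_comm]

/-- the exponential series applied to a vector -/
theorem ex_hasSum (M : V →L[ℝ] V) (s : ℝ) (f : V) :
    HasSum (fun n : ℕ => ((n.factorial : ℝ)⁻¹ * s ^ n) • (M ^ n) f) (ex M s f) := by
  have h1 := NormedSpace.exp_series_hasSum_exp' (𝕂 := ℝ) (s • M)
  have h2 := h1.mapL (ContinuousLinearMap.apply ℝ V f)
  have h3 : (ContinuousLinearMap.apply ℝ V f) (NormedSpace.exp (s • M)) = ex M s f := rfl
  rw [h3] at h2
  refine h2.congr_fun ?_ |> id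
  intro n
  show ((n.factorial : ℝ)⁻¹ * s ^ n) • (M ^ n) f = ((n.factorial : ℝ)⁻¹ • (s • M) ^ n) f
  rw [smul_pow, smul_smul]
  rfl

end Exp

theorem t_CVX : S_CVX := by
  intro V _ _ _ M K hK hC hM s hs f hf
  have e1 : M - 1 = M + (-1 : ℝ) • (1 : V →L[ℝ] V) := by
    rw [neg_smul, one_smul, sub_eq_add_neg]
  have e2 : ex (M - 1) s f = Real.exp (-1 * s) • ex M s f := by
    rw [e1, ex_shift]
    rfl
  have hpow : ∀ n : ℕ, (M ^ n) f ∈ K := by
    intro n
    induction n with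
    | zero => exact hf
    | succ n ih =>
      rw [pow_succ']
      exact hM _ ih
  let w : ℕ → ℝ := fun n => Real.exp (-1 * s) * ((n.factorial : ℝ)⁻¹ * s ^ n)
  have hw0 : ∀ n, 0 ≤ w n := fun n => by positivity
  have hwpos : ∀ N : ℕ, 0 < ∑ n ∈ Finset.range (N + 1), w n := by
    intro N
    have h1 : 0 < w 0 := by
      show 0 < Real.exp (-1 * s) * (((0 : ℕ).factorial : ℝ)⁻¹ * s ^ 0)
      simp only [Nat.factorial_zero, Nat.cast_one, inv_one, pow_zero, mul_one]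
      exact Real.exp_pos _
    exact lt_of_lt_of_le h1 (Finset.single_le_sum (fun n _ => hw0 n)
      (Finset.mem_range.2 (Nat.succ_pos N)))
  have hw1 : HasSum w 1 := by
    have h1 : HasSum (fun n : ℕ => (n.factorial : ℝ)⁻¹ * s ^ n) (Real.exp s) := by
      have h2 := NormedSpace.exp_series_hasSum_exp' (𝕂 := ℝ) s
      rw [← Real.exp_eq_exp_ℝ] at h2
      exact h2
    have h3 := h1.mul_left (Real.exp (-1 * s))
    rw [← Real.exp_add] at h3
    have e : -1 * s + s = 0 := by ring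
    rw [e, Real.exp_zero] at h3
    exact h3
  have hS : HasSum (fun n => w n • (M ^ n) f) (ex (M - 1) s f) := by
    rw [e2]
    have h1 := (ex_hasSum M s f).const_smul (Real.exp (-1 * s))
    simp only [smul_smul] at h1
    exact h1
  have l1 : Tendsto (fun N : ℕ => ∑ n ∈ Finset.range (N + 1), w n) atTop (𝓝 1) :=
    hw1.tendsto_sum_nat.comp (tendsto_add_atTop_nat 1)
  have l2 : Tendsto (fun N : ℕ => ∑ n ∈ Finset.range (N + 1), w n • (M ^ n) f) atTop
      (𝓝 (ex (M - 1) s f)) := hS.tendsto_sum_nat.comp (tendsto_add_atTop_nat 1)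
  have l3 : Tendsto (fun N : ℕ => (∑ n ∈ Finset.range (N + 1), w n)⁻¹ •
      ∑ n ∈ Finset.range (N + 1), w n • (M ^ n) f) atTop (𝓝 ((1 : ℝ)⁻¹ • ex (M - 1) s f)) :=
    (l1.inv₀ one_ne_zero).smul l2
  rw [inv_one, one_smul] at l3
  refine hK.mem_of_tendsto l3 (Eventually.of_forall fun N => ?_)
  exact hC.centerMass_mem (fun n _ => hw0 n) (hwpos N) (fun n _ => hpow n)

section PF

variable {S : Type} [Fintype S] [DecidableEq S] [TopologicalSpace S] [DiscreteTopology S]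

theorem compL_apply (h : C(ℤ → S, ℤ → S)) (f : C(ℤ → S, ℝ)) : compL h f = f.comp h := rfl

/-- `L_F + c = ∑ p compL` -/
theorem LF_add (a : S × S → S × S) (p : ℤ → ℝ) (F : Finset (ℤ × ℤ)) :
    LF a p F + (∑ q ∈ F, p (q.2 - q.1)) • (1 : C(ℤ → S, ℝ) →L[ℝ] C(ℤ → S, ℝ)) =
      ∑ q ∈ F, p (q.2 - q.1) • compL (TC a q.1 q.2) := by
  unfold LF
  rw [Finset.sum_smul, ← Finset.sum_add_distrib]
  refine Finset.sum_congr rfl fun q _ => ?_
  rw [smul_sub, sub_add_cancel]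

/-- The general tool: if `(c + k)⁻¹ ∑ p compL` maps `K` into `K`, then `exp (- k t) PF t` maps
`K` into `K`. -/
theorem PF_shift (a : S × S → S × S) (p : ℤ → ℝ) (hp : ∀ m, 0 ≤ p m) (F : Finset (ℤ × ℤ)) (k : ℝ)
    (hk : 0 < ∑ q ∈ F, p (q.2 - q.1) + k) (K : Set C(ℤ → S, ℝ)) (hK : IsClosed K)
    (hC : Convex ℝ K) (h : ∀ f ∈ K, (∑ q ∈ F, p (q.2 - q.1) + k)⁻¹ •
      ∑ q ∈ F, p (q.2 - q.1) • f.comp (TC a q.1 q.2) ∈ K) (t : ℝ) (ht : 0 ≤ t) (f : C(ℤ → S, ℝ))
    (hf : f ∈ K) : Real.exp (-k * t) • PF a p F t f ∈ K := by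
  set c : ℝ := ∑ q ∈ F, p (q.2 - q.1) with hc
  let M : C(ℤ → S, ℝ) →L[ℝ] C(ℤ → S, ℝ) :=
    (c + k)⁻¹ • ∑ q ∈ F, p (q.2 - q.1) • compL (TC a q.1 q.2)
  have hMf : ∀ g, M g = (c + k)⁻¹ • ∑ q ∈ F, p (q.2 - q.1) • g.comp (TC a q.1 q.2) := by
    intro g
    show (c + k)⁻¹ • (∑ q ∈ F, p (q.2 - q.1) • compL (TC a q.1 q.2)) g = _
    rw [sum_apply]
    rfl
  have h1 := t_CVX C(ℤ → S, ℝ) M K hK hC (fun g hg => by rw [hMf]; exact h g hg) ((c + k) * t)
    (mul_nonneg hk.le ht) f hf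
  have e1 : LF a p F + (-k) • (1 : C(ℤ → S, ℝ) →L[ℝ] C(ℤ → S, ℝ)) = (c + k) • (M - 1) := by
    have h2 := LF_add a p F
    have h3 : (c + k) • M = ∑ q ∈ F, p (q.2 - q.1) • compL (TC a q.1 q.2) := by
      show (c + k) • ((c + k)⁻¹ • _) = _
      rw [smul_smul, mul_inv_cancel₀ hk.ne', one_smul]
    rw [smul_sub, h3, ← h2, ← hc]
    module
  have e2 : ex (M - 1) ((c + k) * t) = Real.exp (-k * t) • PF a p F t := by
    rw [← ex_smul, ← e1, ex_shift]
    rfl
  rw [e2] at h1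
  exact h1

theorem PF_mem (a : S × S → S × S) (p : ℤ → ℝ) (hp : ∀ m, 0 ≤ p m) (F : Finset (ℤ × ℤ)) (t : ℝ)
    (ht : 0 ≤ t) (K : Set C(ℤ → S, ℝ)) (hK : IsClosed K) (hC : Convex ℝ K)
    (h : ∀ f ∈ K, ∀ q ∈ F, f.comp (TC a q.1 q.2) ∈ K) (f : C(ℤ → S, ℝ)) (hf : f ∈ K) :
    PF a p F t f ∈ K := by
  have hc0 : 0 ≤ ∑ q ∈ F, p (q.2 - q.1) := Finset.sum_nonneg fun q _ => hp _
  rcases hc0.eq_or_lt with hc | hc
  · have h0 : ∀ q ∈ F, p (q.2 - q.1) = 0 :=
      (Finset.sum_eq_zero_iff_of_nonneg fun q _ => hp _).1 hc.symm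
    have e : LF a p F = 0 := by
      unfold LF
      refine Finset.sum_eq_zero fun q hq => ?_
      rw [h0 q hq, zero_smul]
    unfold PF
    rw [e]
    have e2 : ex (0 : C(ℤ → S, ℝ) →L[ℝ] C(ℤ → S, ℝ)) t = 1 := by simp [ex]
    rw [e2]
    exact hf
  · have h1 := PF_shift a p hp F 0 (by rw [add_zero]; exact hc) K hK hC (fun g hg => ?_) t ht f hf
    · rw [neg_zero, zero_mul, Real.exp_zero, one_smul] at h1
      exact h1
    · rw [add_zero]
      exact hC.centerMass_mem (fun q _ => hp _) hc (fun q hq => h g hg q hq)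

theorem norm_comp_le (f : C(ℤ → S, ℝ)) (h : C(ℤ → S, ℤ → S)) : ‖f.comp h‖ ≤ ‖f‖ := by
  rw [ContinuousMap.norm_le _ (norm_nonneg _)]
  intro x
  exact f.norm_coe_le_norm _

end PF

theorem t_PFC : S_PFC := by
  intro S _ _ _ _ a p hp F t ht
  refine ⟨fun K hK hC h f hf => PF_mem a p hp F t ht K hK hC h f hf, fun f => ?_, fun f hf => ?_,
    fun c => ?_⟩
  · have h1 := PF_mem a p hp F t ht (Metric.closedBall 0 ‖f‖) Metric.isClosed_closedBall
      (convex_closedBall _ _) (fun g hg q _ => by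
        rw [mem_closedBall_zero_iff] at hg ⊢
        exact (norm_comp_le g _).trans hg) f (by rw [mem_closedBall_zero_iff])
    rwa [mem_closedBall_zero_iff] at h1
  · have hcl : IsClosed {g : C(ℤ → S, ℝ) | ∀ η, 0 ≤ g η} := by
      have e : {g : C(ℤ → S, ℝ) | ∀ η, 0 ≤ g η} = ⋂ η, {g : C(ℤ → S, ℝ) | 0 ≤ g η} := by
        ext g
        simp
      rw [e]
      exact isClosed_iInter fun η => isClosed_le continuous_const (ContinuousEvalConst.continuous_eval_const η)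
    have hcv : Convex ℝ {g : C(ℤ → S, ℝ) | ∀ η, 0 ≤ g η} := by
      intro g hg g' hg' s s' hs hs' _ η
      show 0 ≤ s * g η + s' * g' η
      exact add_nonneg (mul_nonneg hs (hg η)) (mul_nonneg hs' (hg' η))
    exact PF_mem a p hp F t ht _ hcl hcv (fun g hg q _ η => hg _) f hf
  · have h1 := PF_mem a p hp F t ht {ContinuousMap.const _ c} isClosed_singleton
      (convex_singleton _) (fun g hg q _ => by
        rw [Set.mem_singleton_iff] at hg ⊢
        subst hg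
        rfl) (ContinuousMap.const _ c) rfl
    exact h1

end Pool.Agent.K1H38.EX
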