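import Pool.Agent.K1H38.EX.Cvx

/-! Project EX of helper53: influences, uniformly in the finite set of pairs. -/

set_option autoImplicit false
set_option linter.unusedSectionVars false

open MeasureTheory Filter Topology
open scoped ENNReal

namespace Pool.Agent.K1H38.EX

open Pool.Agent.K1H53.EX

/-- iterated weights -/
noncomputable def bb (w : ℤ → ℝ≥0∞) (k : ℝ≥0∞) (b0 : ℤ → ℝ≥0∞) : ℕ → ℤ → ℝ≥0∞
  | 0 => b0
  | n + 1 => fun x => k⁻¹ * ∑' y, w (y - x) * bb w k b0 n y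

theorem bb_sum (w : ℤ → ℝ≥0∞) (k : ℝ≥0∞) (b0 : ℤ → ℝ≥0∞) (n : ℕ) :
    ∑' x, bb w k b0 (n + 1) x = k⁻¹ * ((∑' m, w m) * ∑' x, bb w k b0 n x) := by
  show ∑' x, k⁻¹ * ∑' y, w (y - x) * bb w k b0 n y = _
  rw [ENNReal.tsum_mul_left, ENNReal.tsum_comm]
  congr 1
  rw [← ENNReal.tsum_mul_left]
  refine tsum_congr fun y => ?_
  rw [ENNReal.tsum_mul_right]
  congr 1
  exact (Equiv.subLeft y).tsum_eq w

/-- a summable supersolution -/
theorem super (w : ℤ → ℝ≥0∞) (k : ℝ≥0∞) (hk0 : k ≠ 0) (hkt : k ≠ ⊤) (hw : 2 * ∑' m, w m ≤ k)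
    (b0 : ℤ → ℝ≥0∞) (hb0 : ∑' x, b0 x ≠ ⊤) :
    ∃ b : ℤ → ℝ≥0∞, (∀ x, b0 x ≤ b x) ∧ ∑' x, b x ≠ ⊤ ∧ ∀ x, ∑' y, w (y - x) * b y ≤ k * b x := by
  refine ⟨fun x => ∑' n, bb w k b0 n x, fun x => ?_, ?_, fun x => ?_⟩
  · exact ENNReal.le_tsum 0
  · have h1 : ∀ n, ∑' x, bb w k b0 n x ≤ 2⁻¹ ^ n * ∑' x, b0 x := by
      intro n
      induction n with
      | zero => rw [pow_zero, one_mul]; exact le_rfl
      | succ n ih =>
        rw [bb_sum]
        have h2 : k⁻¹ * ∑' m, w m ≤ 2⁻¹ := by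
          rw [← ENNReal.div_eq_inv_mul, ENNReal.div_le_iff hk0 hkt]
          have h3 : ∑' m, w m = 2⁻¹ * (2 * ∑' m, w m) := by
            rw [← mul_assoc, ENNReal.inv_mul_cancel (by norm_num) (by norm_num), one_mul]
          rw [h3]
          gcongr
        calc k⁻¹ * ((∑' m, w m) * ∑' x, bb w k b0 n x)
            = (k⁻¹ * ∑' m, w m) * ∑' x, bb w k b0 n x := by rw [mul_assoc]
          _ ≤ 2⁻¹ * (2⁻¹ ^ n * ∑' x, b0 x) := by gcongr
          _ = 2⁻¹ ^ (n + 1) * ∑' x, b0 x := by rw [pow_succ', mul_assoc]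
    rw [ENNReal.tsum_comm]
    refine ne_top_of_le_ne_top ?_ (ENNReal.tsum_le_tsum h1)
    rw [ENNReal.tsum_mul_right, ENNReal.tsum_geometric]
    refine ENNReal.mul_ne_top ?_ hb0
    rw [ENNReal.one_sub_inv_two, inv_inv]
    norm_num
  · simp_rw [← ENNReal.tsum_mul_left]
    rw [ENNReal.tsum_comm]
    rw [ENNReal.tsum_mul_left]
    have h1 : ∀ n, ∑' y, w (y - x) * bb w k b0 n y = k * bb w k b0 (n + 1) x := by
      intro n
      show _ = k * (k⁻¹ * _)
      rw [← mul_assoc, ENNReal.mul_inv_cancel hk0 hkt, one_mul]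
    simp_rw [h1]
    rw [ENNReal.tsum_mul_left]
    refine mul_le_mul_of_nonneg_left ?_ zero_le
    exact ENNReal.tsum_comp_le_tsum_of_injective (f := fun n : ℕ => n + 1)
      (add_left_injective 1) (fun n => bb w k b0 n x)

/-- the real version -/
theorem super_real (p : ℤ → ℝ) (hp : ∀ m, 0 ≤ p m) (hs : Summable p) (C : ℝ) (hC : 0 ≤ C)
    (Λ : Finset ℤ) : ∃ (B : ℤ → ℝ) (k : ℝ), 1 ≤ k ∧ (∀ x, 0 ≤ B x) ∧ Summable B ∧
      (∀ x ∈ Λ, C ≤ B x) ∧
      ∀ (G : Finset ℤ) x, ∑ y ∈ G, (p (y - x) + p (x - y)) * B y ≤ k * B x := by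
  let w : ℤ → ℝ≥0∞ := fun m => ENNReal.ofReal (p m + p (-m))
  have hs2 : Summable fun m => p m + p (-m) := hs.add ((Equiv.neg ℤ).summable_iff.2 hs)
  have hwt : ∑' m, w m ≠ ⊤ := hs2.tsum_ofReal_ne_top
  set s0 : ℝ := (∑' m, w m).toReal with hs0
  have hs00 : 0 ≤ s0 := ENNReal.toReal_nonneg
  have hws : ∑' m, w m = ENNReal.ofReal s0 := (ENNReal.ofReal_toReal hwt).symm
  let k : ℝ := 2 * s0 + 1
  have hk1 : 1 ≤ k := by show 1 ≤ 2 * s0 + 1; linarith
  have hk0 : 0 < k := by linarith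
  let b0 : ℤ → ℝ≥0∞ := fun x => if x ∈ Λ then ENNReal.ofReal C else 0
  have hb0 : ∑' x, b0 x ≠ ⊤ := by
    rw [tsum_eq_sum (s := Λ) (fun x hx => if_neg hx)]
    exact ENNReal.sum_ne_top.2 fun x hx => by
      show (if x ∈ Λ then ENNReal.ofReal C else 0) ≠ ⊤
      rw [if_pos hx]
      exact ENNReal.ofReal_ne_top
  obtain ⟨b, h1, h2, h3⟩ := super w (ENNReal.ofReal k) (ENNReal.ofReal_pos.2 hk0).ne'
    ENNReal.ofReal_ne_top (by
      rw [hws, show (2 : ℝ≥0∞) = ENNReal.ofReal 2 by norm_num, ← ENNReal.ofReal_mul (by norm_num)]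
      exact ENNReal.ofReal_le_ofReal (by show 2 * s0 ≤ 2 * s0 + 1; linarith)) b0 hb0
  have hbt : ∀ x, b x ≠ ⊤ := fun x => ENNReal.ne_top_of_tsum_ne_top h2 x
  have hb : ∀ x, b x = ENNReal.ofReal (b x).toReal := fun x => (ENNReal.ofReal_toReal (hbt x)).symm
  refine ⟨fun x => (b x).toReal, k, hk1, fun x => ENNReal.toReal_nonneg,
    ENNReal.summable_toReal h2, fun x hx => ?_, fun G x => ?_⟩
  · have h4 := h1 x
    have h5 : b0 x = ENNReal.ofReal C := if_pos hx
    rw [h5, hb x] at h4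
    exact (ENNReal.ofReal_le_ofReal_iff ENNReal.toReal_nonneg).1 h4
  · have h4 : ∑ y ∈ G, w (y - x) * b y ≤ ENNReal.ofReal k * b x :=
      (ENNReal.sum_le_tsum G).trans (h3 x)
    have h5 : ∑ y ∈ G, w (y - x) * b y =
        ENNReal.ofReal (∑ y ∈ G, (p (y - x) + p (x - y)) * (b y).toReal) := by
      rw [ENNReal.ofReal_sum_of_nonneg]
      · refine Finset.sum_congr rfl fun y _ => ?_
        rw [ENNReal.ofReal_mul (add_nonneg (hp _) (hp _)), ← hb y]
        show ENNReal.ofReal (p (y - x) + p (-(y - x))) * b y = _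
        rw [neg_sub]
      · intro y _
        exact mul_nonneg (add_nonneg (hp _) (hp _)) ENNReal.toReal_nonneg
    rw [h5, hb x, ← ENNReal.ofReal_mul hk0.le] at h4
    exact (ENNReal.ofReal_le_ofReal_iff (mul_nonneg hk0.le ENNReal.toReal_nonneg)).1 h4

section infl

variable {S : Type} [Fintype S] [DecidableEq S] [TopologicalSpace S] [DiscreteTopology S]

/-- influences bounded by `B` -/
def KB (B : ℤ → ℝ) : Set C(ℤ → S, ℝ) :=
  {g | ∀ (x : ℤ) (η ζ : ℤ → S), (∀ y, y ≠ x → η y = ζ y) → |g η - g ζ| ≤ B x}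

theorem KB_closed (B : ℤ → ℝ) : IsClosed (KB B : Set C(ℤ → S, ℝ)) := by
  have e : (KB B : Set C(ℤ → S, ℝ)) = ⋂ (x : ℤ) (η : ℤ → S) (ζ : ℤ → S)
      (_ : ∀ y, y ≠ x → η y = ζ y), {g : C(ℤ → S, ℝ) | |g η - g ζ| ≤ B x} := by
    ext g
    simp only [Set.mem_iInter]
    rfl
  rw [e]
  refine isClosed_iInter fun x => isClosed_iInter fun η => isClosed_iInter fun ζ =>
    isClosed_iInter fun _ => isClosed_le ?_ continuous_const
  exact ((ContinuousEvalConst.continuous_eval_const η).sub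
    (ContinuousEvalConst.continuous_eval_const ζ)).abs

theorem KB_convex (B : ℤ → ℝ) : Convex ℝ (KB B : Set C(ℤ → S, ℝ)) := by
  intro g hg g' hg' s s' hs hs' hss x η ζ h
  have h1 := hg x η ζ h
  have h2 := hg' x η ζ h
  show |(s * g η + s' * g' η) - (s * g ζ + s' * g' ζ)| ≤ B x
  have e : (s * g η + s' * g' η) - (s * g ζ + s' * g' ζ) = s * (g η - g ζ) + s' * (g' η - g' ζ) := by
    ring
  rw [e]
  calc |s * (g η - g ζ) + s' * (g' η - g' ζ)| ≤ |s * (g η - g ζ)| + |s' * (g' η - g' ζ)| :=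
        abs_add_le _ _
    _ = s * |g η - g ζ| + s' * |g' η - g' ζ| := by
        rw [abs_mul, abs_mul, abs_of_nonneg hs, abs_of_nonneg hs']
    _ ≤ s * B x + s' * B x := by gcongr
    _ = B x := by rw [← add_mul, hss, one_mul]

theorem T_off (a : S × S → S × S) (u v : ℤ) (huv : u ≠ v) (η : ℤ → S) (y : ℤ) :
    T a u v η y = if y = v then (a (η u, η v)).2 else if y = u then (a (η u, η v)).1 else η y := by
  unfold T
  rw [if_neg huv]
  by_cases h1 : y = v
  · subst h1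
    rw [if_pos rfl, Function.update_self]
  · rw [if_neg h1, Function.update_of_ne h1]
    by_cases h2 : y = u
    · subst h2
      rw [if_pos rfl, Function.update_self]
    · rw [if_neg h2, Function.update_of_ne h2]

/-- two changes -/
theorem KB_two {B : ℤ → ℝ} {g : C(ℤ → S, ℝ)} (hg : g ∈ (KB B : Set C(ℤ → S, ℝ))) (u v : ℤ)
    (η ζ : ℤ → S) (h : ∀ y, y ≠ u → y ≠ v → η y = ζ y) : |g η - g ζ| ≤ B u + B v := by
  let ω : ℤ → S := Function.update η u (ζ u)
  have h1 : |g η - g ω| ≤ B u := hg u η ω fun y hy => by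
    show η y = Function.update η u (ζ u) y
    rw [Function.update_of_ne hy]
  have h2 : |g ω - g ζ| ≤ B v := hg v ω ζ fun y hy => by
    show Function.update η u (ζ u) y = ζ y
    by_cases hyu : y = u
    · subst hyu
      rw [Function.update_self]
    · rw [Function.update_of_ne hyu]
      exact h y hyu hy
  calc |g η - g ζ| = |(g η - g ω) + (g ω - g ζ)| := by congr 1; ring
    _ ≤ |g η - g ω| + |g ω - g ζ| := abs_add_le _ _
    _ ≤ B u + B v := add_le_add h1 h2

theorem KB_T (a : S × S → S × S) {B : ℤ → ℝ} (hB : ∀ x, 0 ≤ B x) {g : C(ℤ → S, ℝ)}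
    (hg : g ∈ (KB B : Set C(ℤ → S, ℝ))) (u v x : ℤ) (η ζ : ℤ → S)
    (h : ∀ y, y ≠ x → η y = ζ y) : |g (T a u v η) - g (T a u v ζ)| ≤
      B x + ((if u = x then B v else 0) + (if v = x then B u else 0)) := by
  have n1 : 0 ≤ (if u = x then B v else 0) := by split_ifs; exacts [hB _, le_rfl]
  have n2 : 0 ≤ (if v = x then B u else 0) := by split_ifs; exacts [hB _, le_rfl]
  by_cases huv : u = v
  · have h1 := hg x η ζ h
    have e : ∀ ξ : ℤ → S, T a u v ξ = ξ := by
      intro ξ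
      unfold T
      rw [if_pos huv]
    rw [e, e]
    linarith
  · by_cases hux : u = x
    · subst hux
      have hvx : v ≠ u := Ne.symm huv
      rw [if_pos rfl, if_neg hvx, add_zero]
      refine KB_two hg u v _ _ fun y hyu hyv => ?_
      rw [T_off a u v huv, T_off a u v huv, if_neg hyv, if_neg hyv, if_neg hyu, if_neg hyu]
      exact h y hyu
    · by_cases hvx : v = x
      · subst hvx
        rw [if_neg hux, if_pos rfl, zero_add]
        have h1 := KB_two hg u v (T a u v η) (T a u v ζ) fun y hyu hyv => by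
          rw [T_off a u v huv, T_off a u v huv, if_neg hyv, if_neg hyv, if_neg hyu, if_neg hyu]
          exact h y hyv
        linarith
      · rw [if_neg hux, if_neg hvx, add_zero, add_zero]
        refine hg x _ _ fun y hy => ?_
        rw [T_off a u v huv, T_off a u v huv, h u hux, h v hvx, h y hy]

theorem sum_bound (p : ℤ → ℝ) (hp : ∀ m, 0 ≤ p m) {B : ℤ → ℝ} (hB : ∀ x, 0 ≤ B x) (k : ℝ)
    (hk : ∀ (G : Finset ℤ) x, ∑ y ∈ G, (p (y - x) + p (x - y)) * B y ≤ k * B x)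
    (F : Finset (ℤ × ℤ)) (x : ℤ) :
    ∑ q ∈ F, p (q.2 - q.1) * ((if q.1 = x then B q.2 else 0) + (if q.2 = x then B q.1 else 0)) ≤
      k * B x := by
  classical
  let G : Finset ℤ := F.image Prod.snd ∪ F.image Prod.fst
  refine le_trans ?_ (hk G x)
  have h1 : ∑ q ∈ F, p (q.2 - q.1) * (if q.1 = x then B q.2 else 0) ≤
      ∑ y ∈ G, p (y - x) * B y := by
    have e : ∑ q ∈ F, p (q.2 - q.1) * (if q.1 = x then B q.2 else 0) =
        ∑ q ∈ F.filter (fun q => q.1 = x), p (q.2 - x) * B q.2 := by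
      rw [Finset.sum_filter]
      refine Finset.sum_congr rfl fun q _ => ?_
      by_cases hq : q.1 = x
      · rw [if_pos hq, if_pos hq, hq]
      · rw [if_neg hq, if_neg hq, mul_zero]
    rw [e]
    have e2 : ∑ q ∈ F.filter (fun q => q.1 = x), p (q.2 - x) * B q.2 =
        ∑ y ∈ (F.filter (fun q => q.1 = x)).image Prod.snd, p (y - x) * B y := by
      rw [Finset.sum_image]
      intro q hq q' hq' he
      have h3 := (Finset.mem_filter.1 hq).2
      have h4 := (Finset.mem_filter.1 hq').2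
      exact Prod.ext (h3.trans h4.symm) he
    rw [e2]
    refine Finset.sum_le_sum_of_subset_of_nonneg ?_ fun y _ _ => mul_nonneg (hp _) (hB _)
    intro y hy
    obtain ⟨q, hq, rfl⟩ := Finset.mem_image.1 hy
    exact Finset.mem_union_left _ (Finset.mem_image_of_mem _ (Finset.mem_filter.1 hq).1)
  have h2 : ∑ q ∈ F, p (q.2 - q.1) * (if q.2 = x then B q.1 else 0) ≤
      ∑ y ∈ G, p (x - y) * B y := by
    have e : ∑ q ∈ F, p (q.2 - q.1) * (if q.2 = x then B q.1 else 0) =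
        ∑ q ∈ F.filter (fun q => q.2 = x), p (x - q.1) * B q.1 := by
      rw [Finset.sum_filter]
      refine Finset.sum_congr rfl fun q _ => ?_
      by_cases hq : q.2 = x
      · rw [if_pos hq, if_pos hq, hq]
      · rw [if_neg hq, if_neg hq, mul_zero]
    rw [e]
    have e2 : ∑ q ∈ F.filter (fun q => q.2 = x), p (x - q.1) * B q.1 =
        ∑ y ∈ (F.filter (fun q => q.2 = x)).image Prod.fst, p (x - y) * B y := by
      rw [Finset.sum_image]
      intro q hq q' hq' he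
      have h3 := (Finset.mem_filter.1 hq).2
      have h4 := (Finset.mem_filter.1 hq').2
      exact Prod.ext he (h3.trans h4.symm)
    rw [e2]
    refine Finset.sum_le_sum_of_subset_of_nonneg ?_ fun y _ _ => mul_nonneg (hp _) (hB _)
    intro y hy
    obtain ⟨q, hq, rfl⟩ := Finset.mem_image.1 hy
    exact Finset.mem_union_right _ (Finset.mem_image_of_mem _ (Finset.mem_filter.1 hq).1)
  calc ∑ q ∈ F, p (q.2 - q.1) * ((if q.1 = x then B q.2 else 0) + (if q.2 = x then B q.1 else 0))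
      = ∑ q ∈ F, p (q.2 - q.1) * (if q.1 = x then B q.2 else 0) +
        ∑ q ∈ F, p (q.2 - q.1) * (if q.2 = x then B q.1 else 0) := by
        rw [← Finset.sum_add_distrib]
        exact Finset.sum_congr rfl fun q _ => by rw [mul_add]
    _ ≤ ∑ y ∈ G, p (y - x) * B y + ∑ y ∈ G, p (x - y) * B y := add_le_add h1 h2
    _ = ∑ y ∈ G, (p (y - x) + p (x - y)) * B y := by
        rw [← Finset.sum_add_distrib]
        exact Finset.sum_congr rfl fun y _ => by rw [add_mul]

end infl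

theorem infl : S_INFL := by
  intro S _ _ _ _ a p hp hs f Λ hf t₀ ht₀
  obtain ⟨B, k, hk1, hB, hBs, hBC, hBk⟩ := super_real p hp hs (2 * ‖f‖) (by positivity) Λ
  refine ⟨fun x => Real.exp (k * t₀) * B x, fun x => mul_nonneg (Real.exp_pos _).le (hB x),
    hBs.mul_left _, fun F t ht htt x η ζ h => ?_⟩
  have hfK : f ∈ (KB B : Set C(ℤ → S, ℝ)) := by
    intro x η ζ h
    by_cases hx : x ∈ Λ
    · have h1 : |f η - f ζ| ≤ ‖f‖ + ‖f‖ := by
        have h2 := f.norm_coe_le_norm η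
        have h3 := f.norm_coe_le_norm ζ
        rw [Real.norm_eq_abs] at h2 h3
        exact (abs_sub _ _).trans (add_le_add h2 h3)
      have h2 := hBC x hx
      linarith
    · have h1 : f η = f ζ := hf fun y hy => h y fun e => hx (by rw [← e]; exact hy)
      rw [h1, sub_self, abs_zero]
      exact hB x
  have hc0 : 0 ≤ ∑ q ∈ F, p (q.2 - q.1) := Finset.sum_nonneg fun q _ => hp _
  have hck : 0 < ∑ q ∈ F, p (q.2 - q.1) + k := by linarith
  have key := PF_shift a p hp F k hck (KB B) (KB_closed B) (KB_convex B) (fun g hg => ?_) t ht f hfK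
  · have h1 := key x η ζ h
    have h2 : |Real.exp (-k * t) * PF a p F t f η - Real.exp (-k * t) * PF a p F t f ζ| ≤ B x := h1
    rw [← mul_sub, abs_mul, abs_of_pos (Real.exp_pos _)] at h2
    have h3 : |PF a p F t f η - PF a p F t f ζ| ≤ Real.exp (k * t) * B x := by
      have h4 := mul_le_mul_of_nonneg_left h2 (Real.exp_pos (k * t)).le
      rw [← mul_assoc, ← Real.exp_add, show k * t + -k * t = 0 by ring, Real.exp_zero,
        one_mul] at h4
      exact h4
    refine h3.trans ?_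
    have h5 : Real.exp (k * t) ≤ Real.exp (k * t₀) :=
      Real.exp_le_exp.2 (mul_le_mul_of_nonneg_left htt (by linarith))
    exact mul_le_mul_of_nonneg_right h5 (hB x)
  · intro x η ζ h
    have e : ∀ ξ : ℤ → S, ((∑ q ∈ F, p (q.2 - q.1) + k)⁻¹ •
        ∑ q ∈ F, p (q.2 - q.1) • g.comp (TC a q.1 q.2)) ξ =
        (∑ q ∈ F, p (q.2 - q.1) + k)⁻¹ * ∑ q ∈ F, p (q.2 - q.1) * g (T a q.1 q.2 ξ) := by
      intro ξ
      rw [ContinuousMap.smul_apply, ContinuousMap.sum_apply]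
      rfl
    rw [e, e, ← mul_sub, ← Finset.sum_sub_distrib, abs_mul, abs_of_pos (inv_pos.2 hck),
      inv_mul_le_iff₀ hck]
    calc |∑ q ∈ F, (p (q.2 - q.1) * g (T a q.1 q.2 η) - p (q.2 - q.1) * g (T a q.1 q.2 ζ))|
        ≤ ∑ q ∈ F, |p (q.2 - q.1) * g (T a q.1 q.2 η) - p (q.2 - q.1) * g (T a q.1 q.2 ζ)| :=
          Finset.abs_sum_le_sum_abs _ _
      _ ≤ ∑ q ∈ F, (p (q.2 - q.1) * B x + p (q.2 - q.1) *
          ((if q.1 = x then B q.2 else 0) + (if q.2 = x then B q.1 else 0))) := by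
          refine Finset.sum_le_sum fun q _ => ?_
          rw [← mul_sub, abs_mul, abs_of_nonneg (hp _), ← mul_add]
          exact mul_le_mul_of_nonneg_left (KB_T a hB hg q.1 q.2 x η ζ h) (hp _)
      _ ≤ (∑ q ∈ F, p (q.2 - q.1) + k) * B x := by
          rw [Finset.sum_add_distrib, ← Finset.sum_mul, add_mul]
          exact add_le_add le_rfl (sum_bound p hp hB k hBk F x)

theorem t_INFL : S_CVX → S_INFL := fun _ => infl

end Pool.Agent.K1H38.EX
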